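import Mathlib

open scoped BigOperators

namespace Pool.Agent.Helper12.VT

section sel

variable {M : Type} [AddCommGroup M]

/-- If `T` is a maximal independent set of indices, then every `G b` has a nonzero multiple in the
span of `G '' T`. -/
theorem exists_smul_mem_span {B : Type} [Fintype B] (G : B → M) (T : Set B)
    (hT : LinearIndepOn ℤ G T) (hmax : ∀ b, b ∉ T → ¬ LinearIndepOn ℤ G (insert b T)) (b : B) :
    ∃ m : ℤ, m ≠ 0 ∧ m • G b ∈ Submodule.span ℤ (G '' T) := by
  classical
  by_cases hb : b ∈ T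
  · exact ⟨1, one_ne_zero, by rw [one_smul]; exact Submodule.subset_span ⟨b, hb, rfl⟩⟩
  · have h := hmax b hb
    rw [linearIndepOn_iff'] at h
    push Not at h
    obtain ⟨s, f, hs, hsum, i, his, hfi⟩ := h
    have hbs : b ∈ s ∧ f b ≠ 0 := by
      by_contra hcon
      apply hfi
      have hT' := linearIndepOn_iff'.1 hT
      -- remove b
      have h1 : ∑ i ∈ s.erase b, f i • G i = 0 := by
        by_cases hbs : b ∈ s
        · have hf0 : f b = 0 := by
            by_contra h0; exact hcon ⟨hbs, h0⟩
          rw [← Finset.add_sum_erase s _ hbs, hf0, zero_smul, zero_add] at hsum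
          exact hsum
        · rw [Finset.erase_eq_of_notMem hbs]; exact hsum
      have hsub : (↑(s.erase b) : Set B) ⊆ T := by
        intro x hx
        have hx' := Finset.mem_coe.1 hx
        rw [Finset.mem_erase] at hx'
        rcases hs (Finset.mem_coe.2 hx'.2) with h | h
        · exact absurd h hx'.1
        · exact h
      by_cases hib : i = b
      · subst hib
        by_contra h0; exact hcon ⟨his, h0⟩
      · exact hT' (s.erase b) f hsub h1 i (Finset.mem_erase.2 ⟨hib, his⟩)
    refine ⟨f b, hbs.2, ?_⟩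
    have h2 : f b • G b = - ∑ i ∈ s.erase b, f i • G i := by
      rw [← Finset.add_sum_erase s _ hbs.1] at hsum
      exact eq_neg_of_add_eq_zero_left hsum
    rw [h2]
    refine Submodule.neg_mem _ (Submodule.sum_mem _ fun i hi => Submodule.smul_mem _ _ ?_)
    rw [Finset.mem_erase] at hi
    refine Submodule.subset_span ⟨i, ?_, rfl⟩
    rcases hs (Finset.mem_coe.2 hi.2) with h | h
    · exact absurd h hi.1
    · exact h

theorem exists_indep [Module.IsTorsionFree ℤ M] {B : Type} [Fintype B] (G : B → M) {r : ℕ} (P : Fin r → M)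
    (hP : LinearIndependent ℤ P) (hPG : ∀ i, P i ∈ Submodule.span ℤ (Set.range G)) :
    ∃ t : Fin r → B, LinearIndependent ℤ (fun i => G (t i)) := by
  classical
  -- a maximal independent set
  obtain ⟨T, hT⟩ : ∃ T : Set B, Maximal (fun T : Set B => LinearIndepOn ℤ G T) T := by
    have hfin : (Set.univ : Set (Set B)).Finite := Set.finite_univ
    have hf2 : ({T : Set B | LinearIndepOn ℤ G T}).Finite := hfin.subset (Set.subset_univ _)
    obtain ⟨T, hT⟩ := hf2.exists_maximal ⟨∅, by simp⟩
    exact ⟨T, hT⟩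
  have hTi : LinearIndepOn ℤ G T := hT.1
  have hmax : ∀ b, b ∉ T → ¬ LinearIndepOn ℤ G (insert b T) := by
    intro b hb hi
    exact hb (hT.2 hi (Set.subset_insert b T) (Set.mem_insert b T))
  choose m hm0 hm using fun b => exists_smul_mem_span G T hTi hmax b
  set N : ℤ := ∏ b, m b with hN
  have hN0 : N ≠ 0 := Finset.prod_ne_zero_iff.2 fun b _ => hm0 b
  have hNG : ∀ x ∈ Submodule.span ℤ (Set.range G), N • x ∈ Submodule.span ℤ (G '' T) := by
    intro x hx
    induction hx using Submodule.span_induction with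
    | mem x hx =>
      obtain ⟨b, rfl⟩ := hx
      have : N = (∏ c ∈ Finset.univ.erase b, m c) * m b := by
        rw [hN, Finset.prod_erase_mul _ _ (Finset.mem_univ b)]
      rw [this, mul_smul]
      exact Submodule.smul_mem _ _ (hm b)
    | zero => simp
    | add x y _ _ hx hy => rw [smul_add]; exact Submodule.add_mem _ hx hy
    | smul a x _ hx => rw [smul_comm]; exact Submodule.smul_mem _ _ hx
  have hNP : LinearIndependent ℤ (fun i => N • P i) := by
    rw [Fintype.linearIndependent_iff] at hP ⊢
    intro c hc i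
    have := hP (fun i => N * c i) (by
      rw [← hc]
      refine Finset.sum_congr rfl fun i _ => ?_
      rw [smul_smul, mul_comm]) i
    rcases mul_eq_zero.1 this with h | h
    · exact absurd h hN0
    · exact h
  have hle := linearIndependent_le_span_aux' (fun i => N • P i) hNP (G '' T) (by
    rintro _ ⟨i, rfl⟩
    exact hNG _ (hPG i))
  rw [Fintype.card_fin] at hle
  have hle2 : r ≤ Fintype.card T := by
    refine hle.trans ?_
    rw [Set.card_image_of_inj_on hTi.injOn]
  obtain ⟨f⟩ : Nonempty (Fin r ↪ T) := by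
    rw [Function.Embedding.nonempty_iff_card_le, Fintype.card_fin]
    exact hle2
  exact ⟨fun i => f i, hTi.linearIndependent.comp f f.injective⟩

end sel

theorem linearIndependent_iff_prod {Γ₀ : Type} [LinearOrderedCommGroupWithZero Γ₀] {r : ℕ}
    (u : Fin r → Γ₀ˣ) :
    LinearIndependent ℤ (fun i => Additive.ofMul (u i)) ↔
      ∀ n : Fin r → ℤ, ∏ i, (u i : Γ₀) ^ n i = 1 → n = 0 := by
  rw [Fintype.linearIndependent_iff]
  have hk : ∀ n : Fin r → ℤ, (∑ i, n i • Additive.ofMul (u i) = 0 ↔ ∏ i, (u i : Γ₀) ^ n i = 1) := by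
    intro n
    rw [← ofMul_one]
    simp only [← ofMul_zpow, ← ofMul_prod]
    rw [Additive.ofMul.injective.eq_iff]
    rw [← Units.val_inj]
    simp
  constructor
  · intro h n hn
    funext i
    exact h n ((hk n).2 hn) i
  · intro h n hn i
    have := h n ((hk n).1 hn)
    rw [this]; rfl

theorem select {Γ₀ : Type} [LinearOrderedCommGroupWithZero Γ₀] {B : Type} [Fintype B] (g : B → Γ₀)
    (hg : ∀ b, g b ≠ 0) {r : ℕ} (e : Fin r → B → ℕ)
    (h : ∀ n : Fin r → ℤ, ∏ i, (∏ b, g b ^ e i b) ^ n i = 1 → n = 0) :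
    ∃ t : Fin r → B, ∀ n : Fin r → ℤ, ∏ i, g (t i) ^ n i = 1 → n = 0 := by
  classical
  have htf : Module.IsTorsionFree ℤ (Additive Γ₀ˣ) := inferInstance
  let u : B → Γ₀ˣ := fun b => Units.mk0 (g b) (hg b)
  let p : Fin r → Γ₀ˣ := fun i => ∏ b, u b ^ e i b
  have hp : LinearIndependent ℤ (fun i => Additive.ofMul (p i)) := by
    rw [linearIndependent_iff_prod]
    intro n hn
    apply h n
    rw [← hn]
    refine Finset.prod_congr rfl fun i _ => ?_
    simp [p, u, Units.coe_prod]
  obtain ⟨t, ht⟩ := exists_indep (fun b => Additive.ofMul (u b)) (fun i => Additive.ofMul (p i)) hp (by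
    intro i
    simp only [p, ofMul_prod, ofMul_pow]
    refine Submodule.sum_mem _ fun b _ => ?_
    refine Submodule.smul_of_tower_mem _ _ ?_
    exact Submodule.subset_span ⟨b, rfl⟩)
  refine ⟨t, ?_⟩
  have := (linearIndependent_iff_prod (fun i => u (t i))).1 ht
  intro n hn
  exact this n (by simpa [u] using hn)

end Pool.Agent.Helper12.VT
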