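import Mathlib

open scoped BigOperators

namespace Pool.Agent.Helper12.VT

/-- `r + 1` elements of the field of rational functions in `r` variables satisfy a polynomial
relation. -/
theorem exists_relation {k : Type} [Field k] {r : ℕ}
    (x : Option (Fin r) → FractionRing (MvPolynomial (Fin r) k)) :
    ∃ H : MvPolynomial (Option (Fin r)) k, H ≠ 0 ∧ MvPolynomial.aeval x H = 0 := by
  by_contra hcon
  push Not at hcon
  have hind : AlgebraicIndependent k x := by
    rw [algebraicIndependent_iff]
    intro p hp
    by_contra h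
    exact hcon p h hp
  have h1 := hind.cardinalMk_le_trdeg
  have h2 : Algebra.trdeg k (FractionRing (MvPolynomial (Fin r) k)) = r := by
    have h3 := trdeg_add_eq k (MvPolynomial (Fin r) k)
      (A := FractionRing (MvPolynomial (Fin r) k))
    rw [← h3, MvPolynomial.trdeg_of_isDomain]
    have h4 : Algebra.IsAlgebraic (MvPolynomial (Fin r) k)
      (FractionRing (MvPolynomial (Fin r) k)) :=
        IsLocalization.isAlgebraic _ (nonZeroDivisors (MvPolynomial (Fin r) k))
    rw [trdeg_eq_zero]
    simp
  rw [h2] at h1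
  have h5 : Cardinal.mk (Option (Fin r)) = ((r + 1 : ℕ) : Cardinal) := by simp
  rw [h5] at h1
  have := Nat.cast_le.1 h1
  omega

theorem aeval_eq_sum {k L : Type} [Field k] [Field L] [Algebra k L] {r : ℕ}
    (x : Option (Fin r) → L) (H : MvPolynomial (Option (Fin r)) k) :
    MvPolynomial.aeval x H =
      ∑ α ∈ (MvPolynomial.optionEquivRight k (Fin r) H).support,
        Polynomial.aeval (x none) ((MvPolynomial.optionEquivRight k (Fin r) H).coeff α) *
          ∏ i, x (some i) ^ α i := by
  have h1 : ∀ H : MvPolynomial (Option (Fin r)) k, MvPolynomial.aeval x H =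
      MvPolynomial.eval₂ ((Polynomial.aeval (x none) : Polynomial k →ₐ[k] L) : Polynomial k →+* L)
        (fun i => x (some i)) (MvPolynomial.optionEquivRight k (Fin r) H) := by
    intro H
    induction H using MvPolynomial.induction_on with
    | C a => simp
    | add p q hp hq => rw [map_add, hp, hq, map_add, MvPolynomial.eval₂_add]
    | mul_X p i hp =>
      rw [map_mul, hp, map_mul, MvPolynomial.eval₂_mul]
      cases i with
      | none => simp
      | some i => simp
  rw [h1, MvPolynomial.eval₂_eq']
  rfl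

/-- A polynomial over an algebraically closed field whose value at `u` is small has a root close to
`u`. -/
theorem exists_root_close {k L : Type} [Field k] [IsAlgClosed k] [Field L] [Algebra k L]
    {Γ₀ : Type} [LinearOrderedCommGroupWithZero Γ₀] (v : Valuation L Γ₀)
    (hC : ∀ c : k, c ≠ 0 → v (algebraMap k L c) = 1) (u : L) (p : Polynomial k) (hp : p ≠ 0)
    (h : v (Polynomial.aeval u p) < 1) : ∃ c : k, v (u - algebraMap k L c) < 1 := by
  by_contra hcon
  push Not at hcon
  have hs : p.Splits := IsAlgClosed.splits p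
  have h1 : p = Polynomial.C p.leadingCoeff * (p.roots.map fun a => Polynomial.X - Polynomial.C a).prod :=
    hs.eq_prod_roots
  rw [h1, map_mul, map_mul, Polynomial.aeval_C, hC _ (Polynomial.leadingCoeff_ne_zero.2 hp), one_mul]
    at h
  have h2 : ∀ s : Multiset k,
      1 ≤ v (Polynomial.aeval u (s.map fun a => Polynomial.X - Polynomial.C a).prod) := by
    intro s
    induction s using Multiset.induction_on with
    | empty => simp
    | cons a s ih =>
      rw [Multiset.map_cons, Multiset.prod_cons, map_mul, map_mul]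
      exact one_le_mul_of_one_le_of_one_le (by simpa using hcon a) ih
  exact absurd h (not_lt.2 (h2 _))

theorem residue_alg {k : Type} [Field k] [IsAlgClosed k] {r : ℕ} {Γ₀ : Type}
    [LinearOrderedCommGroupWithZero Γ₀] (w : Valuation (MvPolynomial (Fin r) k) Γ₀)
    (h0 : ∀ φ, w φ = 0 → φ = 0) (hC : ∀ c : k, c ≠ 0 → w (MvPolynomial.C c) = 1)
    (g : Fin r → MvPolynomial (Fin r) k) (hgne : ∀ i, g i ≠ 0)
    (hg : ∀ n : Fin r → ℤ, ∏ i, w (g i) ^ n i = 1 → n = 0)
    (φ ψ : MvPolynomial (Fin r) k) (hψ : ψ ≠ 0) (h : w φ = w ψ) :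
    ∃ c : k, w (φ - MvPolynomial.C c * ψ) < w ψ := by
  classical
  let R := MvPolynomial (Fin r) k
  let L := FractionRing R
  have hS : nonZeroDivisors R ≤ w.supp.primeCompl := by
    intro a ha
    change a ∉ w.supp
    rw [Valuation.mem_supp_iff]
    intro h
    exact nonZeroDivisors.ne_zero ha (h0 a h)
  let v : Valuation L Γ₀ := w.extendToLocalization hS L
  have hv : ∀ a : R, v (algebraMap R L a) = w a := fun a =>
    Valuation.extendToLocalization_apply_map_apply w hS L a
  have hg0 : ∀ i, w (g i) ≠ 0 := fun i hi => hgne i (h0 _ hi)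
  have hψ0 : w ψ ≠ 0 := fun h => hψ (h0 _ h)
  set u : L := algebraMap R L φ / algebraMap R L ψ with hu
  have hψL : algebraMap R L ψ ≠ 0 := by
    intro h
    apply hψ0
    rw [← hv, h, map_zero]
  have hvu : v u = 1 := by
    rw [hu, map_div₀, hv, hv, h, div_self hψ0]
  have hCL : ∀ c : k, c ≠ 0 → v (algebraMap k L c) = 1 := by
    intro c hc
    rw [IsScalarTower.algebraMap_apply k R L, hv]
    exact hC c hc
  obtain ⟨H, hH0, hH⟩ := exists_relation (k := k) (r := r)
    (fun o => o.elim u (fun i => algebraMap R L (g i)))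
  rw [aeval_eq_sum] at hH
  set H' := MvPolynomial.optionEquivRight k (Fin r) H with hH'
  have hH'0 : H' ≠ 0 := by
    rw [hH']
    exact (EmbeddingLike.map_ne_zero_iff (f := MvPolynomial.optionEquivRight k (Fin r))).2 hH0
  simp only [Option.elim_none, Option.elim_some] at hH
  -- values of the monomials
  let m : (Fin r →₀ ℕ) → Γ₀ := fun α => ∏ i, w (g i) ^ α i
  have hm0 : ∀ α, m α ≠ 0 := fun α => Finset.prod_ne_zero_iff.2 fun i _ => pow_ne_zero _ (hg0 i)
  have hminj : Function.Injective m := by
    intro α β hαβ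
    have h1 : ∏ i, w (g i) ^ ((fun i => (α i : ℤ) - β i) i) = 1 := by
      have : ∀ i, w (g i) ^ ((α i : ℤ) - β i) = w (g i) ^ α i / w (g i) ^ β i := by
        intro i
        rw [zpow_sub₀ (hg0 i), zpow_natCast, zpow_natCast]
      simp only [this]
      rw [Finset.prod_div_distrib]
      exact (div_eq_one_iff_eq (hm0 β)).2 hαβ
    have h2 := hg _ h1
    ext i
    have := congrFun h2 i
    simp only [Pi.zero_apply] at this
    omega
  have hvu1 : ∀ p : Polynomial k, v (Polynomial.aeval u p) ≤ 1 := by
    intro p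
    rw [Polynomial.aeval_eq_sum_range]
    refine Valuation.map_sum_le v fun i _ => ?_
    rw [Algebra.smul_def, map_mul, map_pow, hvu, one_pow, mul_one]
    by_cases hc : p.coeff i = 0
    · rw [hc]; simp
    · exact (hCL _ hc).le
  obtain ⟨α₀, hα₀, hmax⟩ := Finset.exists_max_image H'.support m
    (MvPolynomial.support_nonempty.2 hH'0)
  have hterm : ∀ α, v (Polynomial.aeval u (H'.coeff α) * ∏ i, algebraMap R L (g i) ^ α i) =
      v (Polynomial.aeval u (H'.coeff α)) * m α := by
    intro α
    rw [map_mul, map_prod]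
    simp only [map_pow, hv]
    rfl
  have hsmall : v (Polynomial.aeval u (H'.coeff α₀)) < 1 := by
    refine lt_of_le_of_ne (hvu1 _) fun h1 => ?_
    have h2 : v (∑ α ∈ H'.support, Polynomial.aeval u (H'.coeff α) *
        ∏ i, algebraMap R L (g i) ^ α i) = m α₀ := by
      rw [Valuation.map_sum_eq_of_lt v hα₀]
      · rw [hterm, h1, one_mul]
      · intro α hα
        rw [Finset.mem_sdiff, Finset.mem_singleton] at hα
        rw [hterm, hterm, h1, one_mul]
        refine lt_of_le_of_lt (mul_le_of_le_one_left zero_le (hvu1 _)) ?_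
        exact lt_of_le_of_ne (hmax α hα.1) fun h => hα.2 (hminj h)
    rw [hH, map_zero] at h2
    exact hm0 α₀ h2.symm
  obtain ⟨c, hc⟩ := exists_root_close v hCL u (H'.coeff α₀)
    (MvPolynomial.mem_support_iff.1 hα₀) hsmall
  refine ⟨c, ?_⟩
  have h3 : algebraMap R L (φ - MvPolynomial.C c * ψ) =
      (u - algebraMap k L c) * algebraMap R L ψ := by
    rw [map_sub, map_mul, sub_mul, hu, div_mul_cancel₀ _ hψL,
      IsScalarTower.algebraMap_apply k R L]
    rfl
  rw [← hv, h3, map_mul, hv]
  calc v (u - algebraMap k L c) * w ψ < 1 * w ψ :=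
        mul_lt_mul_of_pos_right hc (zero_lt_iff.2 hψ0)
    _ = w ψ := one_mul _

end Pool.Agent.Helper12.VT
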